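import Pool.Agent.N103.MotCl

set_option autoImplicit false

/-! # The motivic monodromy conjecture at the origin for ideals built from `h (f₀ + ∑ y_j f_j) ^ a`

Let `GermLin` be the least class of germs of ideals at the origin, together with their local motivic
zeta functions, with the following properties:

* it contains the principal ideals generated by the polynomials
  `FF h f a = h(x₁, x₂) (f₀(x₁, x₂) + ∑ y_j f_j(x₁, x₂)) ^ a ≠ 0`, `a ≥ 1`, with arbitrary polynomials
  `h`, `f₀`, `f_j` in two variables and any number of further variables `y_j`; for `h = 1`, `a = 1` these
  are all the polynomials of degree at most one in all but two variables;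
* it contains the unit ideal, the powers `(x ^ m)`, the non-zero ideals of `ℂ[x, y]`, the ideals of
  `ℂ[x₀, x₁, x₂]` generated by forms of the same degree, three of which are algebraically independent,
  and the ideals generated by forms of the same degree without a common zero outside the origin
  (`Germ`);
* it is closed under sums `I + J` and products `I J` in disjoint sets of variables;
* if the ideal `h ∏_t (f_{t, j})_j ^ a_t` is in the class, where `h` and the `f_{t, j}` are any polynomials
  in the same variables `x`, then the principal ideal of
  `h(x) ∏_t (∑_j y_{t, j} f_{t, j}(x)) ^ a_t` is in the class, with further variables `y_{t, j}`;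
* if the principal ideal `(g)` is in the class, then `(g ^ k)` is in the class.

For example, the ideals `(F_1, …, F_r)`, where the `F_i` are polynomials in disjoint sets of
variables, each of degree at most one in all but two of its variables, are in the class: the
complete intersections of such hypersurfaces.

The local motivic zeta function of `F = FF h f a`: let `X' → ℂ ^ 2` be a composition of blow-ups of
points such that `h` and the pull-back of the ideal `(f₀, f_j)` become monomial; on `X' × ℂ ^ κ` the
polynomial `F` is a monomial in the equations of the exceptional curves and of the strict
transforms of the curves, times `(g₀ + ∑ y_j g_j) ^ a`, where the `g₀, g_j` have no common zero; so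
`g₀ + ∑ y_j g_j = 0` is smooth and transversal to the other components. The sum over the strata over
the origin is computed by the inductive rules of `GermZeta` (in `Pool.Agent.N103.ZDefs`), with
the local factors `(L - 1) L⁻ⁿ Tᵃ / (1 - L⁻ⁿ Tᵃ)` (`mf L`, in `Pool.Agent.W574.MO.Defs`).

The proof (`Pool.Agent.N103.MotCl`): the property of an ideal `I` of the class is that every number
`-n/a` which belongs to a denominator `1 - L⁻ⁿ Tᵃ` of the series of the volumes of `ord I ≥ e` is a
forced root: it is a zero of `B(0, s)` for all the functional equations of `I` with a polynomial
`B(x, s)` in place of `b(s)`. For `F = FF h f a` this is `point_tail`: a functional equation of `F` with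
`b(s₀) ≠ 0`, pulled back to the neighbourhood of an exceptional curve `E` with the candidate pole `s₀`,
gives a rational solution of a differential equation of first order on `E`, so that at most two
points of `E` are special, and the sum of the contributions of `E` has no denominator which belongs
to `s₀` (`point_reg`); over the factorial ring `ℤ[L, L⁻¹]` the denominators which do not belong to roots
can be removed at the same time, and the division by `1 - T` is possible because the volume of the
arcs is `1` (`val_localA`). The series of `I + J` is the Hadamard product of the series of `I` and `J`.
-/

namespace Pool.Agent.Results.MP_4e5fcd_ag.DegreeOneClosure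

open MvPolynomial Pool.Agent.W574.MO Pool.Agent.W574.RO Pool.Agent.Y229 Pool.Agent.N103

/-- **The motivic monodromy conjecture at the origin, in the strong form, for the ideals of the
class `GermLin`**, which contains the principal ideals of the polynomials
`h(x₁, x₂) (f₀(x₁, x₂) + ∑ y_j f_j(x₁, x₂)) ^ a` and is closed under sums and products in disjoint sets
of variables, powers of principal ideals, and products of powers of general forms. Let `I = (f_j)`
be the ideal of the family `A`, in `n` variables, let it be in the class `GermLin`, and let `Z` be its
local motivic zeta function at the origin, normalized such that the arcs with the origin `0` have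
the volume `1`. Then `L⁻ⁿ Z` lies in the ring generated by `M[T]` and the series `1 / (1 - L⁻ᵐ Tᵃ)`,
`a, m ≥ 1`, such that `-m/a` is a root of all the polynomials `b` which satisfy the functional
equation of Budur, Mustata and Saito for `f_1, ..., f_r` with differential operators with formal power
series coefficients at the origin, in particular of the local Bernstein-Sato polynomial of the
ideal `I` at the origin. -/
theorem result {M : Type} [CommRing M] (L : Mˣ) (A : Fam) (Z : PowerSeries M)
    (h : GermLin L A Z) :
    PowerSeries.C ((L⁻¹ ^ Nat.card A.σ : Mˣ) : M) * Z ∈
      DenRing L (fun a m => ∀ b : Polynomial ℂ, IsLocalBI A.f b →
        b.eval (-(m : ℂ) / a) = 0) :=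
  germLin_ideal A Z h _

end Pool.Agent.Results.MP_4e5fcd_ag.DegreeOneClosure
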