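import Pool.Agent.N101.CB.IMainL

set_option autoImplicit false

/-! # The motivic monodromy conjecture for ideals: ideals generated by quadrics suffice

For every ideal `(f_1, …, f_r)` of `ℂ[x_1, …, x_n]` with `f_j(0) = 0` we construct an ideal
`(F_1, …, F_(r + κ))` in `n + κ` variables, `F_j(0) = 0`, generated by polynomials of degree at most two all of
whose monomials are squarefree (`Quad F`), such that the conjecture for `(F)` implies the conjecture for
`(f)`. So the conjecture holds for all ideals if it holds for the ideals generated by such quadrics. The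
same is proved for the strong form of the conjecture.

The conjecture (`Q1`): if `𝕃 ^ (-s₀)` is a pole of the local motivic zeta function of the ideal, then every
polynomial which satisfies a functional equation of the `f_j` near the origin has a root in `s₀ + ℤ`. By
theorems of Budur, Mustata and Saito the second condition means that `exp(2 π i s₀)` is an eigenvalue of
Verdier's monodromy at a point of the normal cone over `Y ∩ B`, `B` a small ball around `0`; this is
equivalent to the condition with the zeros and poles of `Z^mon_{I, e}` (these equivalences are not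
formalized here). In the strong form (`Strong`) `s₀` itself is a root.

Construction. Let `c x ^ (a + b)` be a monomial of `f_j`. The ideal generated by
`f_j + c x ^ b (w - x ^ a) = (f_j - c x ^ (a + b)) + c x ^ b w`, the other `f_i`, and `w - x ^ a`, is the image of
the ideal `(f_1, …, f_r, w)` by the automorphism `w ↦ w - x ^ a`, which fixes the origin. Finitely many steps
of this kind (`κ` of them) lead to quadrics.

Zeta functions. Let `Z_f = 𝕃 ^ n Z^mot_{(f)}`. Since `ord (f, w) = min (ord f, ord w)`, one step gives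
`(1 - 𝕃⁻¹ T) (Z_{(f, w)}(T) - 1) = (1 - T) (Z_f(𝕃⁻¹ T) - 1)` in `𝓜[[T]]`, and all steps together the formula
`(1 - 𝕃 ^ (-κ) T) (Z_F(T) - 1) = (1 - T) (Z_f(𝕃 ^ (-κ) T) - 1)`. So a pole `s₀ < 0` of `Z_f` gives the pole
`s₀ - κ` of `Z_F`.

Functional equations. A local functional equation of `(f_j)` with `b(s)` gives one of `(f_j), w` with
`b(s + 1)`, by a direct computation. The independence of the generators and coordinates is obtained from
both directions of Mustata's theorem (`∑ y_j f_j`, where a change of generators is a linear change of the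
`y_j`), for operators with coefficients in the local ring. -/

namespace Pool.Agent.Results.MP_4e5fcd_ag.QuadraticIdeals

open MvPolynomial Pool.Agent.W428.MOT Pool.Agent.N101.CB

variable {n r : ℕ}

/-- The local motivic zeta function `Z^mot_I(T) = 𝕃 ^ (-n) ∑_N [X_N] 𝕃 ^ (-n N) T ^ N` of the ideal `I`
generated by the `f_j`: `X_N` is the variety of the `N`-jets `ψ` of `𝔸^n` with `ψ(0) = 0` along which the
order of the ideal is `N`. -/
noncomputable def Zmot (f : Fin r → MvPolynomial (Fin n) ℂ) : PowerSeries (MK ℂ) :=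
  PowerSeries.C (((Lu ℂ) ^ (-(n : ℤ)) : (MK ℂ)ˣ) : MK ℂ) * ztI f {0}

/-- `𝕃 ^ (-s₀)` is a pole of `Z`: the series `Z` does not lie in the ring generated by `𝓜[T]` and all
`(1 - 𝕃 ^ (-a) T ^ b)⁻¹` with `b > 0` and `-a / b ≠ s₀`. -/
def HasPole (Z : PowerSeries (MK ℂ)) (s₀ : ℚ) : Prop :=
  Z ∉ ratRing ℂ {p | ∃ a b : ℤ, 0 < b ∧ -(a : ℚ) / b ≠ s₀ ∧ p = (-a, b)}

/-- Q1 for the ideal generated by the `f_j`: if `𝕃 ^ (-s₀)` is a pole of the motivic zeta function, then
every polynomial `b` which satisfies a functional equation of the `f_j` near the origin (`LocFE`: operators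
with coefficients in the local ring at `0`) has a root in `s₀ + ℤ`. -/
def Q1 (f : Fin r → MvPolynomial (Fin n) ℂ) : Prop :=
  ∀ s₀ : ℚ, s₀ < 0 → HasPole (Zmot f) s₀ → ∀ b : Polynomial ℂ, LocFE f b →
    ∃ k : ℤ, b.eval ((s₀ : ℂ) + k) = 0

/-- The strong form: `s₀` is a root of every such `b`, in particular of the local Bernstein-Sato
polynomial of the ideal. -/
def Strong (f : Fin r → MvPolynomial (Fin n) ℂ) : Prop :=
  ∀ s₀ : ℚ, s₀ < 0 → HasPole (Zmot f) s₀ → ∀ b : Polynomial ℂ, LocFE f b →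
    b.eval (s₀ : ℂ) = 0

/-- The `f_j` generate a non-zero ideal whose zero set contains the origin. -/
def Nontriv (f : Fin r → MvPolynomial (Fin n) ℂ) : Prop :=
  (∃ j, f j ≠ 0) ∧ ∀ j, constantCoeff (f j) = 0

theorem hasPole_iff (f : Fin r → MvPolynomial (Fin n) ℂ) (s₀ : ℚ) :
    HasPole (Zmot f) s₀ ↔ IsPole (ztI f {0}) s₀ := by
  have e : {p : ℤ × ℤ | ∃ a b : ℤ, 0 < b ∧ -(a : ℚ) / b ≠ s₀ ∧ p = (-a, b)} =
      {p | 0 < p.2 ∧ (p.1 : ℚ) / p.2 ≠ s₀} := by
    ext p
    constructor
    · rintro ⟨a, b, hb, h, rfl⟩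
      refine ⟨hb, ?_⟩
      push_cast
      exact h
    · rintro ⟨h1, h2⟩
      refine ⟨-p.1, p.2, h1, ?_, ?_⟩
      · push_cast
        rwa [neg_neg]
      · rw [neg_neg]
  unfold HasPole IsPole
  rw [e, not_iff_not]
  constructor
  · intro h
    have h1 := (ratRing ℂ {p | 0 < p.2 ∧ (p.1 : ℚ) / p.2 ≠ s₀}).mul_mem
      (Pool.Agent.W63.MTFin.C_mem _ (((Lu ℂ) ^ (n : ℤ) : (MK ℂ)ˣ) : MK ℂ)) h
    unfold Zmot at h1
    rw [← mul_assoc, ← map_mul, ← Units.val_mul, ← zpow_add, add_neg_cancel, zpow_zero,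
      Units.val_one, map_one, one_mul] at h1
    exact h1
  · intro h
    exact (ratRing ℂ _).mul_mem (Pool.Agent.W63.MTFin.C_mem _ _) h

section
variable {m t κ : ℕ} {f : Fin r → MvPolynomial (Fin n) ℂ} {F : Fin t → MvPolynomial (Fin m) ℂ}

theorem q1_of (hf : Nontriv f) (h : IM.RlL f F κ) (hF : Q1 F) : Q1 f := by
  intro s₀ hs hp b hb
  have h1 := h.pole hf.2 s₀ hs ((hasPole_iff f s₀).1 hp)
  have hκ : (0 : ℚ) ≤ κ := by positivity
  obtain ⟨k, hk⟩ := hF (s₀ - κ) (by linarith) ((hasPole_iff F _).2 h1) _ (h.b b hb)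
  refine ⟨k, ?_⟩
  rw [Polynomial.eval_comp, Polynomial.eval_add, Polynomial.eval_X, Polynomial.eval_C] at hk
  have e : (s₀ : ℂ) + k = ((s₀ - κ : ℚ) : ℂ) + k + κ := by
    push_cast
    ring
  rw [e]
  exact hk

theorem strong_of (hf : Nontriv f) (h : IM.RlL f F κ) (hF : Strong F) : Strong f := by
  intro s₀ hs hp b hb
  have h1 := h.pole hf.2 s₀ hs ((hasPole_iff f s₀).1 hp)
  have hκ : (0 : ℚ) ≤ κ := by positivity
  have hk := hF (s₀ - κ) (by linarith) ((hasPole_iff F _).2 h1) _ (h.b b hb)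
  rw [Polynomial.eval_comp, Polynomial.eval_add, Polynomial.eval_X, Polynomial.eval_C] at hk
  have e : (s₀ : ℂ) = ((s₀ - κ : ℚ) : ℂ) + κ := by
    push_cast
    ring
  rw [e]
  exact hk

end

/-- **Ideals generated by quadrics suffice for the motivic monodromy conjecture for ideals.**

First part: for all `f_1, …, f_r` in `n` variables which generate a non-zero ideal, `f_j(0) = 0`, there are
`κ` and polynomials `F_1, …, F_(r + κ)` in `n + κ` variables, of degree at most two and with squarefree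
monomials (`Quad F`), which generate a non-zero ideal, `F_j(0) = 0`, such that
(1) `(1 - 𝕃 ^ (-κ) T) (Z_F(T) - 1) = (1 - T) (Z_f(𝕃 ^ (-κ) T) - 1)`, where `Z_f = 𝕃 ^ n Z^mot_{(f)} = ztI f {0}`;
(2) if `s₀ < 0` is a pole of the zeta function of `(f)` then `s₀ - κ` is a pole of the one of `(F)`;
(3) a local functional equation of the `f_j` with `b(s)` gives one of the `F_j` with `b(s + κ)`;
(4) Q1 for `(F)` implies Q1 for `(f)`, and the same for the strong form.

Second and third part: Q1 (respectively the strong form) holds for all such ideals, in any number of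
variables, if and only if it holds for those generated by quadrics with `Quad f`. -/
theorem result :
    (∀ {n r : ℕ} (f : Fin r → MvPolynomial (Fin n) ℂ), Nontriv f →
      ∃ (κ m t : ℕ) (F : Fin t → MvPolynomial (Fin m) ℂ), m = n + κ ∧ t = r + κ ∧ Quad F ∧
        Nontriv F ∧
        ((1 - PowerSeries.C (((Lu ℂ) ^ (-(κ : ℤ)) : (MK ℂ)ˣ) : MK ℂ) * PowerSeries.X) *
            (ztI F {0} - 1) =
          (1 - PowerSeries.X) *
            (PowerSeries.rescale (((Lu ℂ) ^ (-(κ : ℤ)) : (MK ℂ)ˣ) : MK ℂ) (ztI f {0}) - 1)) ∧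
        (∀ s₀ : ℚ, s₀ < 0 → HasPole (Zmot f) s₀ → HasPole (Zmot F) (s₀ - κ)) ∧
        (∀ b : Polynomial ℂ, LocFE f b →
          LocFE F (b.comp (Polynomial.X + Polynomial.C (κ : ℂ)))) ∧
        (Q1 F → Q1 f) ∧ (Strong F → Strong f)) ∧
    ((∀ (n r : ℕ) (f : Fin r → MvPolynomial (Fin n) ℂ), Nontriv f → Q1 f) ↔
      ∀ (n r : ℕ) (f : Fin r → MvPolynomial (Fin n) ℂ), Quad f → Nontriv f → Q1 f) ∧
    ((∀ (n r : ℕ) (f : Fin r → MvPolynomial (Fin n) ℂ), Nontriv f → Strong f) ↔
      ∀ (n r : ℕ) (f : Fin r → MvPolynomial (Fin n) ℂ), Quad f → Nontriv f → Strong f) := by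
  refine ⟨fun {n r} f hf => ?_, ⟨fun h n r f _ => h n r f, fun h n r f hf => ?_⟩,
    ⟨fun h n r f _ => h n r f, fun h n r f hf => ?_⟩⟩
  · obtain ⟨κ, m, t, F, hm, ht, hF, hl⟩ := IM.exists_quadrics_loc f
    exact ⟨κ, m, t, F, hm, ht, hF, ⟨hl.ne hf.1, hl.const hf.2⟩, hl.form hf.2,
      fun s₀ hs hp => (hasPole_iff F _).2 (hl.pole hf.2 s₀ hs ((hasPole_iff f s₀).1 hp)), hl.b,
      q1_of hf hl, strong_of hf hl⟩
  · obtain ⟨κ, m, t, F, -, -, hF, hl⟩ := IM.exists_quadrics_loc f
    exact q1_of hf hl (h m t F hF ⟨hl.ne hf.1, hl.const hf.2⟩)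
  · obtain ⟨κ, m, t, F, -, -, hF, hl⟩ := IM.exists_quadrics_loc f
    exact strong_of hf hl (h m t F hF ⟨hl.ne hf.1, hl.const hf.2⟩)

end Pool.Agent.Results.MP_4e5fcd_ag.QuadraticIdeals
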